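import Pool.Agent.R489.HC.Stm

set_option autoImplicit false

namespace Pool.Agent.R489.HC

theorem gam_le {V : Type} [DecidableEq V] {G : SimpleGraph V} {p : V → ℝ} (hp : p ∈ Gam G)
    (x : V) : p x ≤ 1 := by
  rcases hp with ⟨u, rfl⟩ | ⟨u, w, ha, s, h0, h1, rfl⟩
  · simp only [Pi.single_apply]
    split_ifs <;> norm_num
  · simp only [Pi.add_apply, Pi.single_apply]
    split_ifs with h2 h3
    · exact absurd (h2.symm.trans h3) ha.ne
    · linarith
    · linarith
    · norm_num

theorem ATT : S_ATT := by
  classical
  intro V _ _ G p q hp hq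
  constructor
  · intro h
    by_contra hcon
    push Not at hcon
    -- the finitely many possible small values
    let F : Finset ℝ := insert 1 ((Finset.univ.image (fun x : V => |p x - q x|)) ∪
      (Finset.univ.image (fun x : V => (1 - p x) + (1 - q x))))
    let F' : Finset ℝ := F.filter (fun x => 1 / 2 < x)
    have hne : F'.Nonempty := ⟨1, by
      simp only [F', F, Finset.mem_filter, Finset.mem_insert, true_or, true_and]
      norm_num⟩
    obtain ⟨d, hd, hmin⟩ := Finset.exists_min_image F' id hne
    have hd2 : 1 / 2 < d := (Finset.mem_filter.1 hd).2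
    have h1 : (1 : ℝ) ∈ F' := by
      simp only [F', F, Finset.mem_filter, Finset.mem_insert, true_or, true_and]
      norm_num
    have hd1 : d ≤ 1 := hmin 1 h1
    have hall : ∀ l ∈ Lengths G p q, d ≤ l := by
      intro l hl
      have hl2 := hcon l hl
      rcases hl with ⟨u, w, -, -, -, rfl⟩ | ⟨u, w, k, -, -, rfl⟩
      · apply hmin
        simp only [F', F, Finset.mem_filter, Finset.mem_insert, Finset.mem_union,
          Finset.mem_image, Finset.mem_univ, true_and]
        exact ⟨Or.inr (Or.inl ⟨u, rfl⟩), hl2⟩
      · have hpu := gam_le hp u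
        have hqw := gam_le hq w
        rcases Nat.eq_zero_or_pos k.length with hk | hk
        · have huw : u = w := SimpleGraph.Walk.eq_of_length_eq_zero hk
          subst huw
          apply hmin
          simp only [F', F, Finset.mem_filter, Finset.mem_insert, Finset.mem_union,
            Finset.mem_image, Finset.mem_univ, true_and]
          refine ⟨Or.inr (Or.inr ⟨u, ?_⟩), hl2⟩
          rw [hk]
          simp
        · have : (1 : ℝ) ≤ (k.length : ℝ) := by exact_mod_cast hk
          linarith
    have h3 : ENNReal.ofReal d ≤ dist G p q :=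
      le_iInf₂ fun l hl => ENNReal.ofReal_le_ofReal (hall l hl)
    have h4 := h3.trans h
    rw [ENNReal.ofReal_le_ofReal_iff (by norm_num)] at h4
    linarith
  · rintro ⟨l, hl, hl2⟩
    exact (iInf₂_le l hl).trans (ENNReal.ofReal_le_ofReal hl2)

end Pool.Agent.R489.HC
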