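import Mathlib

/-!
# Half-radius ball covers of planar metric graphs: definitions

Triangulations of the sphere, planar graphs, the continuous graph of a graph (in barycentric
coordinates) with its path metric, balls, and colourability.
-/

set_option autoImplicit false

namespace Pool.Agent.R489.HC

open Finset

section Sphere

variable {W : Type} [DecidableEq W]

/-- the vertices of the complex with the triangles `Φ` -/
def vertices (Φ : Finset (Finset W)) : Finset W := Φ.biUnion id

/-- the edges of the complex with the triangles `Φ` -/
def edges (Φ : Finset (Finset W)) : Finset (Finset W) := Φ.biUnion (fun f => f.powersetCard 2)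

/-- `Φ` is the set of triangles of a triangulation of the sphere: a finite closed surface (every
edge is in exactly two triangles; the link of every vertex is connected, that is any two triangles
at a vertex are joined by a chain of triangles at this vertex in which consecutive ones share an
edge), connected, with Euler characteristic two -/
structure IsTriangulatedSphere (Φ : Finset (Finset W)) : Prop where
  nonempty : Φ.Nonempty
  triangles : ∀ f ∈ Φ, f.card = 3
  closed : ∀ e ∈ edges Φ, (Φ.filter (fun f => e ⊆ f)).card = 2
  links : ∀ (v : W) (f g : Finset W), f ∈ Φ → g ∈ Φ → v ∈ f → v ∈ g →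
    Relation.ReflTransGen (fun f' g' => f' ∈ Φ ∧ g' ∈ Φ ∧ v ∈ f' ∩ g' ∧ (f' ∩ g').card = 2) f g
  connected : ∀ (f g : Finset W), f ∈ Φ → g ∈ Φ →
    Relation.ReflTransGen (fun f' g' => f' ∈ Φ ∧ g' ∈ Φ ∧ (f' ∩ g').Nonempty) f g
  euler : (vertices Φ).card + Φ.card = (edges Φ).card + 2

end Sphere

/-- A graph is planar if it is isomorphic to a subgraph of the graph of a triangulation of the
sphere. -/
def Planar {V : Type} (G : SimpleGraph V) : Prop :=
  ∃ (W : Type) (_ : DecidableEq W) (Φ : Finset (Finset W)) (φ : V → W),
    IsTriangulatedSphere Φ ∧ Function.Injective φ ∧ ∀ u w, G.Adj u w → {φ u, φ w} ∈ edges Φ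

section Metric

variable {V : Type} [DecidableEq V]

/-- The points of the continuous graph of `G` in barycentric coordinates: the vertices, and the
points of the edges; the point at distance `s` from `u` on the edge `uw` has the coordinates
`1 - s` at `u` and `s` at `w`. -/
def Gam (G : SimpleGraph V) : Set (V → ℝ) :=
  {p | (∃ u, p = Pi.single u 1) ∨
    ∃ u w, G.Adj u w ∧ ∃ s : ℝ, 0 ≤ s ∧ s ≤ 1 ∧ p = Pi.single u (1 - s) + Pi.single w s}

/-- The lengths of the paths from `p` to `q`: the direct one if `p` and `q` are on the edge `uw`;
or from `p` to an end `u` of the edge of `p` (at distance `1 - p u`), along a walk `k` in `G` to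
an end `w` of the edge of `q`, and then to `q` (at distance `1 - q w` from `w`). -/
def Lengths (G : SimpleGraph V) (p q : V → ℝ) : Set ℝ :=
  {l | (∃ u w, G.Adj u w ∧ p u + p w = 1 ∧ q u + q w = 1 ∧ l = |p u - q u|) ∨
    ∃ (u w : V) (k : G.Walk u w), 0 < p u ∧ 0 < q w ∧ l = (1 - p u) + k.length + (1 - q w)}

/-- The distance in the continuous graph, infinite between different components. -/
noncomputable def dist (G : SimpleGraph V) (p q : V → ℝ) : ENNReal :=
  ⨅ l ∈ Lengths G p q, ENNReal.ofReal l

/-- The closed ball. -/
def ball (G : SimpleGraph V) (p : V → ℝ) (r : ℝ) : Set (V → ℝ) :=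
  {q | q ∈ Gam G ∧ dist G p q ≤ ENNReal.ofReal r}

/-- The continuous graph of `G` is `(r, c)`-colourable: there are a set `B` of balls of radius `r`
with centres in the continuous graph whose union is the continuous graph and a map `f` from `B` to
`c` colours with different values on distinct intersecting balls. -/
def Colourable (G : SimpleGraph V) (r : ℝ) (c : ℕ) : Prop :=
  ∃ (B : Set (Set (V → ℝ))) (f : B → Fin c),
    (∀ b ∈ B, ∃ p ∈ Gam G, b = ball G p r) ∧ ⋃₀ B = Gam G ∧
    ∀ b b' : B, b ≠ b' → ((b : Set (V → ℝ)) ∩ b').Nonempty → f b ≠ f b'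

/-- The `r`-chromatic number. -/
noncomputable def chi (G : SimpleGraph V) (r : ℝ) : ℕ∞ :=
  ⨅ c ∈ {c : ℕ | Colourable G r c}, (c : ℕ∞)

end Metric

end Pool.Agent.R489.HC
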