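import Pool.Agent.R489.HC.Stm

set_option autoImplicit false

namespace Pool.Agent.R489.HC

open Pool.Agent.R489.HB

theorem planar_of (hX : S_SPHX) (hP : S_PARX) {V : Type} {G : SimpleGraph V} (h : Planar G) :
    HB.Planar G := by
  obtain ⟨W, inst, Φ, φ, hS, hφ, hG⟩ := h
  obtain ⟨p1, p2⟩ := hP W Φ hS
  exact ⟨W, inst, Φ, φ, ⟨hS.nonempty, hS.triangles, hS.closed, p1, p2,
    hX W Φ hS.nonempty hS.triangles hS.closed p2 hS.euler⟩, hφ, hG⟩

theorem rep_mem {V : Type} [DecidableEq V] {G : SimpleGraph V} (p : Pt G) : rep p ∈ Gam G := by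
  rcases p.h with ⟨h1, h2⟩ | ⟨h1, h2, h3⟩
  · left
    refine ⟨p.u, ?_⟩
    unfold rep
    rw [h2]
    simp
  · right
    exact ⟨p.u, p.w, h1, p.s, h2, h3, rfl⟩

theorem rep_surj {V : Type} [DecidableEq V] {G : SimpleGraph V} {x : V → ℝ} (hx : x ∈ Gam G) :
    ∃ p : Pt G, rep p = x := by
  rcases hx with ⟨u, rfl⟩ | ⟨u, w, ha, s, h0, h1, rfl⟩
  · refine ⟨⟨u, u, 0, Or.inl ⟨rfl, rfl⟩⟩, ?_⟩
    simp [rep]
  · exact ⟨⟨u, w, s, Or.inr ⟨ha, h0, h1⟩⟩, rfl⟩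

theorem mem_iff (hA : S_ATT) (h1 : S_REP1) (h2 : S_REP2) {V : Type} [Fintype V] [DecidableEq V]
    {G : SimpleGraph V} (p q : Pt G) : q ∈ hball p ↔ rep q ∈ ball G (rep p) (1 / 2) := by
  constructor
  · intro h
    exact ⟨rep_mem q, (hA V G _ _ (rep_mem p) (rep_mem q)).2 (h1 V G p q _ h)⟩
  · intro h
    exact h2 V G p q _ ((hA V G _ _ (rep_mem p) (rep_mem q)).1 h.2)

theorem transfer (hA : S_ATT) (h1 : S_REP1) (h2 : S_REP2) {V : Type} [Fintype V] [DecidableEq V]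
    {G : SimpleGraph V} {c : ℕ} (h : HalfColourable G c) : Colourable G (1 / 2) c := by
  obtain ⟨B, f, hB1, hB2, hB3⟩ := h
  have key : ∀ p : Pt G, rep ⁻¹' (ball G (rep p) (1 / 2)) = hball p := by
    intro p
    ext q
    exact (mem_iff hA h1 h2 p q).symm
  refine ⟨{b' | ∃ p : Pt G, hball p ∈ B ∧ b' = ball G (rep p) (1 / 2)},
    fun b' => f (rep ⁻¹' b'.1), ?_, ?_, ?_⟩
  · rintro b ⟨p, -, rfl⟩
    exact ⟨rep p, rep_mem p, rfl⟩
  · apply Set.Subset.antisymm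
    · rintro x ⟨b, ⟨p, -, rfl⟩, hx⟩
      exact hx.1
    · intro x hx
      obtain ⟨q, rfl⟩ := rep_surj hx
      obtain ⟨b, hb, hq⟩ := hB2 q
      obtain ⟨p, rfl⟩ := hB1 b hb
      exact ⟨_, ⟨p, hb, rfl⟩, (mem_iff hA h1 h2 p q).1 hq⟩
  · rintro ⟨b, p, hp, rfl⟩ ⟨b', p', hp', rfl⟩ hne ⟨x, hx1, hx2⟩
    obtain ⟨q, rfl⟩ := rep_surj hx1.1
    have hne' : hball p ≠ hball p' := by
      intro heq
      apply hne
      apply Subtype.ext
      show ball G (rep p) (1 / 2) = ball G (rep p') (1 / 2)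
      rw [← key p, ← key p'] at heq
      ext y
      constructor
      · intro hy
        obtain ⟨z, rfl⟩ := rep_surj hy.1
        have : z ∈ rep ⁻¹' (ball G (rep p) (1 / 2)) := hy
        rw [heq] at this
        exact this
      · intro hy
        obtain ⟨z, rfl⟩ := rep_surj hy.1
        have : z ∈ rep ⁻¹' (ball G (rep p') (1 / 2)) := hy
        rw [← heq] at this
        exact this
    have := hB3 _ hp _ hp' hne' ⟨q, (mem_iff hA h1 h2 p q).2 hx1, (mem_iff hA h1 h2 p' q).2 hx2⟩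
    show f (rep ⁻¹' (ball G (rep p) (1 / 2))) ≠ f (rep ⁻¹' (ball G (rep p') (1 / 2)))
    rw [key p, key p']
    exact this

end Pool.Agent.R489.HC
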