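import Pool.Agent.R489.HC.Stm

set_option autoImplicit false

namespace Pool.Agent.R489.HC

open Pool.Agent.R489.HB

theorem mem_edg' {W : Type} [DecidableEq W] {Φ : Finset (Finset W)} {e : Finset W} :
    e ∈ edg Φ ↔ ∃ f ∈ Φ, e ⊆ f ∧ e.card = 2 := by
  simp [edg, Finset.mem_powersetCard]

theorem mem_fc' {W : Type} [DecidableEq W] {Φ : Finset (Finset W)} {e f : Finset W} :
    f ∈ fc Φ e ↔ f ∈ Φ ∧ e ⊆ f := by
  simp [fc]

theorem step {W : Type} [DecidableEq W] {Φ Ψ : Finset (Finset W)} (hS : IsTriangulatedSphere Φ)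
    (hΨ : Ψ ⊆ Φ) {v : W} (hev : ∀ e ∈ edg Φ, v ∈ e → Even (fc Ψ e).card) {f g : Finset W}
    (h : f ∈ Φ ∧ g ∈ Φ ∧ v ∈ f ∩ g ∧ (f ∩ g).card = 2) (hf : f ∈ Ψ) : g ∈ Ψ := by
  obtain ⟨h1, h2, h3, h4⟩ := h
  have he : f ∩ g ∈ edg Φ := mem_edg'.2 ⟨f, h1, Finset.inter_subset_left, h4⟩
  have hne : f ≠ g := by
    rintro rfl
    rw [Finset.inter_self, hS.triangles f h1] at h4
    omega
  have hc : (fc Φ (f ∩ g)).card = 2 := hS.closed _ he
  have hE := hev _ he h3
  by_contra hg
  have hsub : ({f, g} : Finset (Finset W)) ⊆ fc Φ (f ∩ g) := by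
    intro x hx
    simp only [Finset.mem_insert, Finset.mem_singleton] at hx
    rcases hx with rfl | rfl
    · exact mem_fc'.2 ⟨h1, Finset.inter_subset_left⟩
    · exact mem_fc'.2 ⟨h2, Finset.inter_subset_right⟩
  have heq : ({f, g} : Finset (Finset W)) = fc Φ (f ∩ g) :=
    Finset.eq_of_subset_of_card_le hsub (by rw [hc, Finset.card_pair hne])
  have hone : fc Ψ (f ∩ g) = {f} := by
    ext x
    rw [mem_fc', Finset.mem_singleton]
    constructor
    · rintro ⟨hx1, hx2⟩
      have : x ∈ fc Φ (f ∩ g) := mem_fc'.2 ⟨hΨ hx1, hx2⟩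
      rw [← heq] at this
      simp only [Finset.mem_insert, Finset.mem_singleton] at this
      rcases this with rfl | rfl
      · rfl
      · exact absurd hx1 hg
    · rintro rfl
      exact ⟨hf, Finset.inter_subset_left⟩
  rw [hone, Finset.card_singleton] at hE
  exact absurd hE (by decide)

theorem chain {W : Type} [DecidableEq W] {Φ Ψ : Finset (Finset W)} (hS : IsTriangulatedSphere Φ)
    (hΨ : Ψ ⊆ Φ) {v : W} (hev : ∀ e ∈ edg Φ, v ∈ e → Even (fc Ψ e).card) {f g : Finset W}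
    (h : Relation.ReflTransGen
      (fun f' g' => f' ∈ Φ ∧ g' ∈ Φ ∧ v ∈ f' ∩ g' ∧ (f' ∩ g').card = 2) f g)
    (hf : f ∈ Ψ) : g ∈ Ψ := by
  induction h with
  | refl => exact hf
  | tail _ h ih => exact step hS hΨ hev h ih

theorem PARX : S_PARX := by
  intro W _ Φ hS
  refine ⟨?_, ?_⟩
  · intro v Ψ hΨ hev
    have hsub : Ψ ⊆ Φ := fun f hf => (mem_fc'.1 (hΨ hf)).1
    by_cases h0 : Ψ = ∅
    · left; exact h0
    · right
      obtain ⟨f, hf⟩ := Finset.nonempty_iff_ne_empty.2 h0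
      apply Finset.Subset.antisymm hΨ
      intro g hg
      have h1 := mem_fc'.1 (hΨ hf)
      have h2 := mem_fc'.1 hg
      exact chain hS hsub hev (hS.links v f g h1.1 h2.1 (by simpa using h1.2)
        (by simpa using h2.2)) hf
  · intro Ψ hΨ hev
    by_cases h0 : Ψ = ∅
    · left; exact h0
    · right
      obtain ⟨f, hf⟩ := Finset.nonempty_iff_ne_empty.2 h0
      apply Finset.Subset.antisymm hΨ
      intro g hg
      have h := hS.connected f g (hΨ hf) hg
      clear hg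
      induction h with
      | refl => exact hf
      | tail _ h ih =>
        obtain ⟨h1, h2, v, hv⟩ := h
        rw [Finset.mem_inter] at hv
        exact chain hS hΨ (fun e he _ => hev e he) (hS.links v _ _ h1 h2 hv.1 hv.2) ih

end Pool.Agent.R489.HC
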