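import Pool.Agent.R489.HC.Stm

set_option autoImplicit false

namespace Pool.Agent.R489.HC

open Pool.Agent.R489.HB

variable {V : Type} [DecidableEq V] {G : SimpleGraph V}

theorem rep_ne {P : Pt G} (h : P.u ≠ P.w) : rep P P.u = 1 - P.s ∧ rep P P.w = P.s := by
  constructor
  · simp [rep, Pi.single_apply, h]
  · simp [rep, Pi.single_apply, h.symm]

theorem rep_eq {P : Pt G} (h : P.u = P.w) : P.s = 0 ∧ rep P P.u = 1 := by
  rcases P.h with ⟨_, h2⟩ | ⟨h1, _, _⟩
  · refine ⟨h2, ?_⟩
    simp [rep, h2]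
  · exact absurd h h1.ne

theorem rep_other {P : Pt G} {x : V} (h1 : x ≠ P.u) (h2 : x ≠ P.w) : rep P x = 0 := by
  simp [rep, Pi.single_apply, h1, h2]

theorem s_bd (P : Pt G) : 0 ≤ P.s ∧ P.s ≤ 1 := by
  rcases P.h with ⟨_, h2⟩ | ⟨_, h2, h3⟩
  · rw [h2]; norm_num
  · exact ⟨h2, h3⟩

theorem adj_of_ne {P : Pt G} (h : P.u ≠ P.w) : G.Adj P.u P.w := by
  rcases P.h with ⟨h1, _⟩ | ⟨h1, _, _⟩
  · exact absurd h1 h
  · exact h1

theorem end_walk {P : Pt G} {x : V} {α : ℝ} (h : P.End x α) :
    ∃ (x' : V) (k : G.Walk x' x), 0 < rep P x' ∧ (1 - rep P x') + (k.length : ℝ) = α := by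
  obtain ⟨hs0, hs1⟩ := s_bd P
  rcases h with ⟨rfl, rfl⟩ | ⟨hne, rfl, rfl⟩
  · by_cases he : P.u = P.w
    · obtain ⟨h1, h2⟩ := rep_eq he
      refine ⟨P.u, SimpleGraph.Walk.nil, ?_, ?_⟩
      · rw [h2]; norm_num
      · rw [h2, h1]; simp
    · obtain ⟨h1, h2⟩ := rep_ne he
      by_cases hs : P.s = 1
      · refine ⟨P.w, (adj_of_ne he).symm.toWalk, ?_, ?_⟩
        · rw [h2, hs]; norm_num
        · rw [h2, hs]; simp
      · have : P.s < 1 := lt_of_le_of_ne hs1 hs
        refine ⟨P.u, SimpleGraph.Walk.nil, ?_, ?_⟩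
        · rw [h1]; linarith
        · rw [h1]; simp
  · obtain ⟨h1, h2⟩ := rep_ne hne
    by_cases hs : P.s = 0
    · refine ⟨P.u, (adj_of_ne hne).toWalk, ?_, ?_⟩
      · rw [h1, hs]; norm_num
      · rw [h1, hs]; simp
    · have : 0 < P.s := lt_of_le_of_ne hs0 (Ne.symm hs)
      refine ⟨P.w, SimpleGraph.Walk.nil, ?_, ?_⟩
      · rw [h2]; exact this
      · rw [h2]; simp

theorem rep1 (P Q : Pt G) (r : ℝ) (h : dle P Q r) :
    ∃ l ∈ Lengths G (rep P) (rep Q), l ≤ r := by
  rcases h with ⟨h1, h2, h3⟩ | ⟨h1, h2, h3, h4⟩ | ⟨x, y, α, β, k, h1, h2, h3⟩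
  · by_cases he : P.u = P.w
    · obtain ⟨p1, p2⟩ := rep_eq he
      have he' : Q.u = Q.w := by rw [← h1, ← h2]; exact he
      obtain ⟨q1, q2⟩ := rep_eq he'
      refine ⟨0, Or.inr ⟨P.u, P.u, SimpleGraph.Walk.nil, ?_, ?_, ?_⟩, ?_⟩
      · rw [p2]; norm_num
      · rw [h1, q2]; norm_num
      · rw [p2, h1, q2]; simp
      · rw [p1, q1] at h3; simpa using h3
    · obtain ⟨p1, p2⟩ := rep_ne he
      have he' : Q.u ≠ Q.w := by rw [← h1, ← h2]; exact he
      obtain ⟨q1, q2⟩ := rep_ne he'
      rw [← h1] at q1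
      rw [← h2] at q2
      refine ⟨|P.s - Q.s|, Or.inl ⟨P.u, P.w, adj_of_ne he, ?_, ?_, ?_⟩, h3⟩
      · rw [p1, p2]; ring
      · rw [q1, q2]; ring
      · rw [p1, q1, abs_sub_comm]; congr 1; ring
  · have he := h1.ne
    obtain ⟨p1, p2⟩ := rep_ne he
    have he' : Q.u ≠ Q.w := by rw [← h2, ← h3]; exact he.symm
    obtain ⟨q1, q2⟩ := rep_ne he'
    rw [← h3] at q1
    rw [← h2] at q2
    refine ⟨|P.s - (1 - Q.s)|, Or.inl ⟨P.u, P.w, h1, ?_, ?_, ?_⟩, h4⟩
    · rw [p1, p2]; ring
    · rw [q1, q2]; ring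
    · rw [p1, q2, abs_sub_comm]; congr 1; ring
  · obtain ⟨x', k1, a1, a2⟩ := end_walk h1
    obtain ⟨y', k2, b1, b2⟩ := end_walk h2
    refine ⟨_, Or.inr ⟨x', y', k1.append (k.append k2.reverse), a1, b1, rfl⟩, ?_⟩
    rw [SimpleGraph.Walk.length_append, SimpleGraph.Walk.length_append,
      SimpleGraph.Walk.length_reverse]
    push_cast
    linarith

theorem endL {P : Pt G} {x : V} (h : 0 < rep P x) : P.End x (1 - rep P x) := by
  by_cases he : P.u = P.w
  · obtain ⟨p1, p2⟩ := rep_eq he
    by_cases hx : x = P.u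
    · left
      refine ⟨hx, ?_⟩
      rw [hx, p2, p1]; ring
    · rw [rep_other hx (by rw [← he]; exact hx)] at h
      exact absurd h (lt_irrefl _)
  · obtain ⟨p1, p2⟩ := rep_ne he
    by_cases hx : x = P.u
    · left
      refine ⟨hx, ?_⟩
      rw [hx, p1]; ring
    · by_cases hx' : x = P.w
      · right
        refine ⟨he, hx', ?_⟩
        rw [hx', p2]
      · rw [rep_other hx hx'] at h
        exact absurd h (lt_irrefl _)

theorem rep_nonneg (P : Pt G) (x : V) : 0 ≤ rep P x := by
  obtain ⟨h0, h1⟩ := s_bd P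
  unfold rep
  simp only [Pi.add_apply, Pi.single_apply]
  split_ifs <;> linarith

theorem two_ends {P : Pt G} {u w : V} (hne : u ≠ w) (h1 : 0 < rep P u) (h2 : 0 < rep P w) :
    P.u ≠ P.w ∧ ((P.u = u ∧ P.w = w) ∨ (P.u = w ∧ P.w = u)) := by
  have a1 : u = P.u ∨ u = P.w := by
    by_contra hcon
    push Not at hcon
    rw [rep_other hcon.1 hcon.2] at h1
    exact lt_irrefl _ h1
  have a2 : w = P.u ∨ w = P.w := by
    by_contra hcon
    push Not at hcon
    rw [rep_other hcon.1 hcon.2] at h2
    exact lt_irrefl _ h2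
  have hPne : P.u ≠ P.w := by
    intro h
    rcases a1 with a1 | a1 <;> rcases a2 with a2 | a2 <;> apply hne <;> rw [a1, a2] <;>
      first | rfl | exact h | exact h.symm
  refine ⟨hPne, ?_⟩
  rcases a1 with a1 | a1 <;> rcases a2 with a2 | a2
  · exact absurd (a1.trans a2.symm) hne
  · exact Or.inl ⟨a1.symm, a2.symm⟩
  · exact Or.inr ⟨a2.symm, a1.symm⟩
  · exact absurd (a1.trans a2.symm) hne

theorem rep2 (P Q : Pt G) (r : ℝ) (h : ∃ l ∈ Lengths G (rep P) (rep Q), l ≤ r) : dle P Q r := by
  obtain ⟨l, hl, hlr⟩ := h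
  rcases hl with ⟨u, w, ha, hP, hQ, rfl⟩ | ⟨u, w, k, hP, hQ, rfl⟩
  · have nPu := rep_nonneg P u
    have nPw := rep_nonneg P w
    have nQu := rep_nonneg Q u
    have nQw := rep_nonneg Q w
    rcases eq_or_lt_of_le nPu with h0 | h0
    · -- rep P u = 0
      have e1 : rep P w = 1 := by linarith
      have E1 := endL (P := P) (x := w) (by rw [e1]; norm_num)
      rcases eq_or_lt_of_le nQw with h1 | h1
      · have e2 : rep Q u = 1 := by linarith
        have E2 := endL (P := Q) (x := u) (by rw [e2]; norm_num)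
        refine Or.inr (Or.inr ⟨w, u, _, _, ha.symm.toWalk, E1, E2, ?_⟩)
        rw [← h0, e2] at hlr
        rw [e1, e2]
        simp at hlr ⊢
        linarith
      · have E2 := endL h1
        refine Or.inr (Or.inr ⟨w, w, _, _, SimpleGraph.Walk.nil, E1, E2, ?_⟩)
        rw [← h0] at hlr
        rw [zero_sub, abs_neg, abs_of_nonneg nQu] at hlr
        rw [e1]
        simp
        linarith
    · rcases eq_or_lt_of_le nPw with h0' | h0'
      · have e1 : rep P u = 1 := by linarith
        have E1 := endL (P := P) (x := u) (by rw [e1]; norm_num)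
        rcases eq_or_lt_of_le nQu with h1 | h1
        · have e2 : rep Q w = 1 := by linarith
          have E2 := endL (P := Q) (x := w) (by rw [e2]; norm_num)
          refine Or.inr (Or.inr ⟨u, w, _, _, ha.toWalk, E1, E2, ?_⟩)
          rw [e1, ← h1] at hlr
          rw [e1, e2]
          simp at hlr ⊢
          linarith
        · have E2 := endL h1
          refine Or.inr (Or.inr ⟨u, u, _, _, SimpleGraph.Walk.nil, E1, E2, ?_⟩)
          rw [e1, abs_of_nonneg (by linarith)] at hlr
          rw [e1]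
          simp
          linarith
      · rcases eq_or_lt_of_le nQu with h1 | h1
        · have e2 : rep Q w = 1 := by linarith
          have E2 := endL (P := Q) (x := w) (by rw [e2]; norm_num)
          have E1 := endL h0'
          refine Or.inr (Or.inr ⟨w, w, _, _, SimpleGraph.Walk.nil, E1, E2, ?_⟩)
          rw [← h1, sub_zero, abs_of_nonneg nPu] at hlr
          rw [e2]
          simp
          linarith
        · rcases eq_or_lt_of_le nQw with h1' | h1'
          · have e2 : rep Q u = 1 := by linarith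
            have E2 := endL (P := Q) (x := u) (by rw [e2]; norm_num)
            have E1 := endL h0
            refine Or.inr (Or.inr ⟨u, u, _, _, SimpleGraph.Walk.nil, E1, E2, ?_⟩)
            rw [e2, abs_sub_comm, abs_of_nonneg (by linarith)] at hlr
            rw [e2]
            simp
            linarith
          · obtain ⟨np, cp⟩ := two_ends ha.ne h0 h0'
            obtain ⟨nq, cq⟩ := two_ends ha.ne h1 h1'
            obtain ⟨p1, p2⟩ := rep_ne np
            obtain ⟨q1, q2⟩ := rep_ne nq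
            rcases cp with ⟨c1, c2⟩ | ⟨c1, c2⟩ <;> rcases cq with ⟨d1, d2⟩ | ⟨d1, d2⟩
            · left
              refine ⟨by rw [c1, d1], by rw [c2, d2], ?_⟩
              rw [c1] at p1
              rw [d1] at q1
              rw [p1, q1, abs_sub_comm] at hlr
              refine le_trans (le_of_eq ?_) hlr
              congr 1; ring
            · right; left
              refine ⟨adj_of_ne np, by rw [c1, d2], by rw [c2, d1], ?_⟩
              rw [c1] at p1
              rw [d2] at q2
              rw [p1, q2, abs_sub_comm] at hlr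
              refine le_trans (le_of_eq ?_) hlr
              congr 1; ring
            · right; left
              refine ⟨adj_of_ne np, by rw [c1, d2], by rw [c2, d1], ?_⟩
              rw [c2] at p2
              rw [d1] at q1
              rw [p2, q1] at hlr
              exact hlr
            · left
              refine ⟨by rw [c1, d1], by rw [c2, d2], ?_⟩
              rw [c2] at p2
              rw [d2] at q2
              rw [p2, q2] at hlr
              exact hlr
  · exact Or.inr (Or.inr ⟨u, w, _, _, k, endL hP, endL hQ, hlr⟩)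

theorem REP1 : S_REP1 := fun _ _ _ P Q r h => rep1 P Q r h

theorem REP2 : S_REP2 := fun _ _ _ P Q r h => rep2 P Q r h

end Pool.Agent.R489.HC
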