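import Pool.Agent.R489.HB.Stm
import Pool.Agent.R489.HC.Defs

set_option autoImplicit false

namespace Pool.Agent.R489.HC

open Pool.Agent.R489.HB

/-- exactness in the middle from the Euler characteristic -/
def S_SPHX : Prop := ∀ (W : Type) [DecidableEq W] (Φ : Finset (Finset W)), Φ.Nonempty →
  (∀ f ∈ Φ, f.card = 3) → (∀ e ∈ edg Φ, (fc Φ e).card = 2) →
  (∀ Ψ ⊆ Φ, (∀ e ∈ edg Φ, Even (fc Ψ e).card) → Ψ = ∅ ∨ Ψ = Φ) →
  (vts Φ).card + Φ.card = (edg Φ).card + 2 →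
  ∀ Z ⊆ edg Φ, (∀ v : W, Even (Z.filter (fun e => v ∈ e)).card) →
    ∃ Ψ ⊆ Φ, ∀ e ∈ edg Φ, (e ∈ Z ↔ Odd (fc Ψ e).card)

/-- the links and the connectedness in terms of parity -/
def S_PARX : Prop := ∀ (W : Type) [DecidableEq W] (Φ : Finset (Finset W)),
  IsTriangulatedSphere Φ →
  (∀ v : W, ∀ Ψ ⊆ fc Φ {v}, (∀ e ∈ edg Φ, v ∈ e → Even (fc Ψ e).card) →
    Ψ = ∅ ∨ Ψ = fc Φ {v}) ∧
  (∀ Ψ ⊆ Φ, (∀ e ∈ edg Φ, Even (fc Ψ e).card) → Ψ = ∅ ∨ Ψ = Φ)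

/-- barycentric coordinates of a point -/
noncomputable def rep {V : Type} [DecidableEq V] {G : SimpleGraph V} (p : Pt G) : V → ℝ :=
  Pi.single p.u (1 - p.s) + Pi.single p.w p.s

/-- the infimum is attained -/
def S_ATT : Prop := ∀ (V : Type) [Fintype V] [DecidableEq V] (G : SimpleGraph V) (p q : V → ℝ),
  p ∈ Gam G → q ∈ Gam G →
  (dist G p q ≤ ENNReal.ofReal (1 / 2) ↔ ∃ l ∈ Lengths G p q, l ≤ 1 / 2)

/-- path lengths in the two descriptions -/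
def S_REP1 : Prop := ∀ (V : Type) [DecidableEq V] (G : SimpleGraph V) (P Q : Pt G) (r : ℝ),
  dle P Q r → ∃ l ∈ Lengths G (rep P) (rep Q), l ≤ r

def S_REP2 : Prop := ∀ (V : Type) [DecidableEq V] (G : SimpleGraph V) (P Q : Pt G) (r : ℝ),
  (∃ l ∈ Lengths G (rep P) (rep Q), l ≤ r) → dle P Q r

end Pool.Agent.R489.HC
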